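import Pool.Agent.H624CB.Strict

/-!
The closing hierarchy of cellular automata does not collapse at a finite level, over any finite
alphabet with at least two letters: for every `n`, neither `L^cl_{n+1}` nor `R^cl_{n+1}` is
contained in `L^cl_n ∪ R^cl_n`.

The automata are alternating compositions `g_{n+1} ∘ ⋯ ∘ g_1`, where `g_k` exchanges the code words
`0` and `k` after (for `g_k` right-closing) or before (for `g_k` left-closing) a code word `k`.
-/

namespace Pool.Agent.Results.MP_2e1455_lc.HierarchyStrict

open Pool.Agent.H624CA

/-- Over every finite alphabet `S` with at least two letters each level `L^cl_{n+1}`, `R^cl_{n+1}`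
of the closing hierarchy contains a cellular automaton outside `L^cl_n ∪ R^cl_n`; in particular the
set `H` of all finite compositions of left- and right-closing cellular automata is not
`L^cl_n ∪ R^cl_n` for any `n`. -/
theorem result (S : Type) [Finite S] [Nontrivial S] :
    (∀ (n : ℕ) (b : Bool), ∃ f ∈ Lev S (n + 1) b, f ∉ Lev S n true ∧ f ∉ Lev S n false) ∧
      ¬ ∃ n : ℕ, (⋃ k : ℕ, Lev S k true) = Lev S n true ∪ Lev S n false := by
  refine ⟨fun n b => lev_strict S n b, ?_⟩
  rintro ⟨n, hn⟩
  obtain ⟨f, hf, h1, h2⟩ := lev_strict S n true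
  have : f ∈ Lev S n true ∪ Lev S n false := by
    rw [← hn]
    exact Set.mem_iUnion.2 ⟨n + 1, hf⟩
  rcases this with h | h
  · exact h1 h
  · exact h2 h

end Pool.Agent.Results.MP_2e1455_lc.HierarchyStrict
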