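import Pool.Agent.H624CA.Block

/-!
On every full shift with at least two letters there is a surjective cellular automaton that is not
a finite composition of left-closing and right-closing cellular automata: it lies in no level of
the closing hierarchy.
-/

namespace Pool.Agent.Results.MP_2e1455_lc.SurjectiveNotInHierarchy

open Pool.Agent.H624CA

/-- For every finite alphabet `S` with at least two letters there is a surjective cellular automaton
on the full shift over `S` that belongs to no level (left or right) of the closing hierarchy. -/
theorem result (S : Type) [Finite S] [Nontrivial S] :
    ∃ f : (ℤ → S) → (ℤ → S), IsCA f ∧ Function.Surjective f ∧ ∀ (k : ℕ) (b : Bool), f ∉ Lev S k b :=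
  exists_surjective_not_lev S

end Pool.Agent.Results.MP_2e1455_lc.SurjectiveNotInHierarchy
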